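import Mathlib

/-! # Definitions: `p`-limits, `p`-sequential and `p`-Fréchet-Urysohn spaces, `γ_p`-covers -/

set_option autoImplicit false

namespace Pool.Agent.Lib.MP_8a5d18_gt

universe u

/-- `y` is the `p`-limit of the sequence `a`: `{n | a n ∈ U} ∈ p` for every neighbourhood `U`
of `y`. -/
def PLim {Y : Type u} [TopologicalSpace Y] (p : Ultrafilter ℕ) (a : ℕ → Y) (y : Y) : Prop :=
  ∀ U ∈ nhds y, {n | a n ∈ U} ∈ p

/-- `p`-sequential: a set containing all `p`-limits of its sequences is closed. -/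
def PSequential (p : Ultrafilter ℕ) (Y : Type u) [TopologicalSpace Y] : Prop :=
  ∀ A : Set Y, (∀ (a : ℕ → Y) (y : Y), (∀ n, a n ∈ A) → PLim p a y → y ∈ A) → IsClosed A

/-- `p`-Fréchet-Urysohn: every point in the closure of a set `A` is the `p`-limit of a sequence
in `A`. -/
def PFrechet (p : Ultrafilter ℕ) (Y : Type u) [TopologicalSpace Y] : Prop :=
  ∀ (A : Set Y) (y : Y), y ∈ closure A → ∃ a : ℕ → Y, (∀ n, a n ∈ A) ∧ PLim p a y

/-- `C_p(X)`: the continuous functions `X → ℝ` with the subspace topology of the product. -/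
abbrev Cp (X : Type u) [TopologicalSpace X] : Type u := {f : X → ℝ // Continuous f}

/-- Open `ω`-covers of `X`. -/
def OmegaCover {X : Type u} [TopologicalSpace X] (𝒰 : Set (Set X)) : Prop :=
  (∀ U ∈ 𝒰, IsOpen U) ∧ Set.univ ∉ 𝒰 ∧ ∀ F : Finset X, ∃ U ∈ 𝒰, (F : Set X) ⊆ U

/-- `γ_p`-covers: open covers which can be enumerated (repetitions allowed) as `{u n : n ∈ ℕ}`
with `{n | x ∈ u n} ∈ p` for every point `x`. -/
def GammaPCover {X : Type u} [TopologicalSpace X] (p : Ultrafilter ℕ) (𝒱 : Set (Set X)) : Prop :=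
  (∀ V ∈ 𝒱, IsOpen V) ∧ ⋃₀ 𝒱 = Set.univ ∧
    ∃ u : ℕ → Set X, Set.range u = 𝒱 ∧ ∀ x, {n | x ∈ u n} ∈ p

/-- The `γ_p`-property: every open `ω`-cover has a subfamily which is a `γ_p`-cover. -/
def GammaP (p : Ultrafilter ℕ) (X : Type u) [TopologicalSpace X] : Prop :=
  ∀ 𝒰 : Set (Set X), OmegaCover 𝒰 → ∃ 𝒱 ⊆ 𝒰, GammaPCover p 𝒱

end Pool.Agent.Lib.MP_8a5d18_gt
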