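import Pool.Agent.Lib.MP_8a5d18_gt.Ins.Defs

/-! # Definition: `γ_p`-covers with a one-to-one enumeration -/

set_option autoImplicit false

namespace Pool.Agent.Lib.MP_8a5d18_gt

universe u

/-- Covers which can be enumerated WITHOUT repetitions as `{u n : n ∈ ℕ}` with
`{n | x ∈ u n} ∈ p` for every point `x`. -/
def GammaPCoverInj {X : Type u} [TopologicalSpace X] (p : Ultrafilter ℕ) (𝒱 : Set (Set X)) :
    Prop :=
  (∀ V ∈ 𝒱, IsOpen V) ∧ ⋃₀ 𝒱 = Set.univ ∧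
    ∃ u : ℕ → Set X, Function.Injective u ∧ Set.range u = 𝒱 ∧ ∀ x, {n | x ∈ u n} ∈ p

end Pool.Agent.Lib.MP_8a5d18_gt
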