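import Mathlib

/-! # An independent family of functions, and the ultrafilter built from it -/

set_option autoImplicit false

namespace Pool.Agent.Lib.MP_8a5d18_gt.Inj

/-- An independent family of functions on a countable set. -/
theorem indep_aux : ∃ (D : Type) (_ : Countable D) (f : Set (ℕ × ℕ) → D → ℕ × ℕ),
    ∀ (A : Finset (Set (ℕ × ℕ))) (t : Set (ℕ × ℕ) → ℕ × ℕ), ∃ d : D, ∀ α ∈ A, f α d = t α := by
  classical
  refine ⟨Finset (ℕ × ℕ) × (Finset (ℕ × ℕ) →₀ ℕ × ℕ), inferInstance,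
    fun α d => d.2 (d.1.filter (fun e => e ∈ α)), ?_⟩
  intro A t
  -- a finite set separating the members of `A`
  have hsep : ∀ α β : Set (ℕ × ℕ), ∃ e : ℕ × ℕ, α ≠ β → ¬ (e ∈ α ↔ e ∈ β) := by
    intro α β
    by_cases h : α = β
    · exact ⟨(0, 0), fun h' => absurd h h'⟩
    · by_contra hcon
      push Not at hcon
      apply h
      ext e
      exact (hcon e).2
  choose e he using hsep
  let F : Finset (ℕ × ℕ) := (A ×ˢ A).image fun x => e x.1 x.2
  have hF : ∀ α ∈ A, ∀ β ∈ A, F.filter (fun x => x ∈ α) = F.filter (fun x => x ∈ β) → α = β := by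
    intro α hα β hβ h
    by_contra hne
    apply he α β hne
    have hmem : e α β ∈ F := Finset.mem_image.2 ⟨(α, β), Finset.mem_product.2 ⟨hα, hβ⟩, rfl⟩
    have h1 : e α β ∈ F.filter (fun x => x ∈ α) ↔ e α β ∈ F.filter (fun x => x ∈ β) := by rw [h]
    rw [Finset.mem_filter, Finset.mem_filter] at h1
    constructor
    · intro h2
      exact (h1.1 ⟨hmem, h2⟩).2
    · intro h2
      exact (h1.2 ⟨hmem, h2⟩).2
  -- the function with the prescribed values
  let g : Finset (ℕ × ℕ) → ℕ × ℕ := fun s =>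
    if h : ∃ α ∈ A, F.filter (fun x => x ∈ α) = s then t h.choose else 0
  let h : Finset (ℕ × ℕ) →₀ ℕ × ℕ :=
    Finsupp.onFinset (A.image fun α => F.filter (fun x => x ∈ α)) g (by
      intro s hs
      by_contra hcon
      apply hs
      refine dif_neg ?_
      rintro ⟨α, hα, rfl⟩
      exact hcon (Finset.mem_image_of_mem _ hα))
  refine ⟨(F, h), fun α hα => ?_⟩
  change g (F.filter (fun x => x ∈ α)) = t α
  have hex : ∃ β ∈ A, F.filter (fun x => x ∈ β) = F.filter (fun x => x ∈ α) := ⟨α, hα, rfl⟩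
  have h1 : g (F.filter (fun x => x ∈ α)) = t hex.choose := dif_pos hex
  rw [h1, hF _ hex.choose_spec.1 _ hα hex.choose_spec.2]

/-- An independent family of functions `ℕ → ℕ × ℕ` indexed by the subsets of `ℕ × ℕ`; the
prescribed values are attained outside of any finite set. -/
theorem indep : ∃ f : Set (ℕ × ℕ) → ℕ → ℕ × ℕ,
    ∀ (A : Finset (Set (ℕ × ℕ))) (t : Set (ℕ × ℕ) → ℕ × ℕ) (K : Finset ℕ),
      ∃ k, k ∉ K ∧ ∀ α ∈ A, f α k = t α := by
  classical
  obtain ⟨D, _, f, hf⟩ := indep_aux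
  have hne : Nonempty D := ⟨(hf ∅ fun _ => 0).choose⟩
  obtain ⟨e, he⟩ := exists_surjective_nat D
  refine ⟨fun α k => f α (e k), fun A t K => ?_⟩
  obtain ⟨α', hα'⟩ : ∃ α' : Set (ℕ × ℕ), α' ∉ A := Infinite.exists_notMem_finset A
  obtain ⟨y, hy⟩ : ∃ y : ℕ × ℕ, y ∉ K.image fun k => f α' (e k) :=
    Infinite.exists_notMem_finset _
  obtain ⟨d, hd⟩ := hf (insert α' A) (Function.update t α' y)
  obtain ⟨k, rfl⟩ := he d
  refine ⟨k, fun hk => hy ?_, fun α hα => ?_⟩
  · have h1 := hd α' (Finset.mem_insert_self _ _)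
    rw [Function.update_self] at h1
    rw [← h1]
    exact Finset.mem_image_of_mem (fun k => f α' (e k)) hk
  · have h1 := hd α (Finset.mem_insert_of_mem hα)
    rw [Function.update_of_ne] at h1
    · exact h1
    · rintro rfl
      exact hα' hα

/-- The ultrafilter. `C α x j` says that `x` lies in the `j`-th member of the cover coded by `α`;
if all finite sets of points lie in a member, then the family has a `q`-enumeration. Moreover `q`
is not the image of `p₀` under any function. -/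
theorem exists_ultra {X : Type} (C : Set (ℕ × ℕ) → X → ℕ → Prop) (p₀ : Ultrafilter ℕ) :
    ∃ q : Ultrafilter ℕ, (∀ n : ℕ, ({n} : Set ℕ)ᶜ ∈ q) ∧
      (∀ α, (∀ F : Finset X, ∃ j, ∀ x ∈ F, C α x j) →
        ∃ w : ℕ → ℕ, ∀ x, {k | C α x (w k)} ∈ q) ∧
      ∀ g : ℕ → ℕ, ∃ T ∈ q, g ⁻¹' T ∉ p₀ := by
  classical
  obtain ⟨f, hf⟩ := indep
  let gr : (ℕ → ℕ) → Set (ℕ × ℕ) := fun g => {x | g x.1 = x.2}
  have hgr : Function.Injective gr := by
    intro g g' h
    funext n
    have h1 : (n, g n) ∈ gr g := rfl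
    rw [h] at h1
    exact (show g' n = g n from h1).symm
  let b : Set (ℕ × ℕ) → ℕ := fun α =>
    if ∃ g : ℕ → ℕ, gr g = α ∧ {n | (f α (g n)).2 = 0} ∈ p₀ then 1 else 0
  let Cov : Set (ℕ × ℕ) → Prop := fun α => ∀ F : Finset X, ∃ j, ∀ x ∈ F, C α x j
  let G : Finset (Set (ℕ × ℕ)) → Finset X → Finset ℕ → Set ℕ := fun A F K =>
    {k | k ∉ K ∧ ∀ α ∈ A, (Cov α → ∀ x ∈ F, C α x (f α k).1) ∧ (f α k).2 = b α}
  have hne : ∀ A F K, (G A F K).Nonempty := by
    intro A F K
    have h1 : ∀ α, ∃ j, Cov α → ∀ x ∈ F, C α x j := by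
      intro α
      by_cases h : Cov α
      · obtain ⟨j, hj⟩ := h F
        exact ⟨j, fun _ => hj⟩
      · exact ⟨0, fun h' => absurd h' h⟩
    choose j hj using h1
    obtain ⟨k, hk, hk'⟩ := hf A (fun α => (j α, b α)) K
    refine ⟨k, hk, fun α hα => ?_⟩
    rw [hk' α hα]
    exact ⟨hj α, rfl⟩
  have hmono : ∀ A A' F F' K K', A ⊆ A' → F ⊆ F' → K ⊆ K' → G A' F' K' ⊆ G A F K := by
    intro A A' F F' K K' hA hF hK k hk
    exact ⟨fun h => hk.1 (hK h), fun α hα => ⟨fun hc x hx => (hk.2 α (hA hα)).1 hc x (hF hx),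
      (hk.2 α (hA hα)).2⟩⟩
  let L : Filter ℕ :=
    { sets := {S | ∃ A F K, G A F K ⊆ S}
      univ_sets := ⟨∅, ∅, ∅, Set.subset_univ _⟩
      sets_of_superset := fun ⟨A, F, K, h⟩ h' => ⟨A, F, K, h.trans h'⟩
      inter_sets := by
        rintro S S' ⟨A, F, K, h⟩ ⟨A', F', K', h'⟩
        refine ⟨A ∪ A', F ∪ F', K ∪ K', Set.subset_inter ?_ ?_⟩
        · exact (hmono _ _ _ _ _ _ Finset.subset_union_left Finset.subset_union_left
            Finset.subset_union_left).trans h
        · exact (hmono _ _ _ _ _ _ Finset.subset_union_right Finset.subset_union_right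
            Finset.subset_union_right).trans h' }
  have hL : ∀ S, (∃ A F K, G A F K ⊆ S) → S ∈ L := fun S h => h
  have hbot : L.NeBot := by
    rw [Filter.neBot_iff]
    intro hL0
    have h0 : (∅ : Set ℕ) ∈ L := by rw [hL0]; exact Filter.mem_bot
    obtain ⟨A, F, K, h⟩ := h0
    obtain ⟨k, hk⟩ := hne A F K
    exact h hk
  have hq : ∀ S, S ∈ L → S ∈ Ultrafilter.of L := fun S hS => Ultrafilter.of_le L hS
  refine ⟨Ultrafilter.of L, ?_, ?_, ?_⟩
  · intro n
    refine hq _ (hL _ ⟨∅, ∅, {n}, ?_⟩)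
    intro k hk hkn
    exact hk.1 (Finset.mem_singleton.2 hkn)
  · intro α hα
    refine ⟨fun k => (f α k).1, fun x => hq _ (hL _ ⟨{α}, {x}, ∅, ?_⟩)⟩
    intro k hk
    exact (hk.2 α (Finset.mem_singleton_self α)).1 hα x (Finset.mem_singleton_self x)
  · intro g
    refine ⟨{k | (f (gr g) k).2 = b (gr g)}, hq _ (hL _ ⟨{gr g}, ∅, ∅, ?_⟩), ?_⟩
    · intro k hk
      exact (hk.2 _ (Finset.mem_singleton_self _)).2
    · intro hmem
      by_cases h : ∃ g' : ℕ → ℕ, gr g' = gr g ∧ {n | (f (gr g) (g' n)).2 = 0} ∈ p₀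
      · have hb : b (gr g) = 1 := if_pos h
        obtain ⟨g', hg', hm⟩ := h
        have hgg : g' = g := hgr hg'
        subst hgg
        have h2 := p₀.inter_sets hm hmem
        have h3 : {n | (f (gr g') (g' n)).2 = 0} ∩ g' ⁻¹' {k | (f (gr g') k).2 = b (gr g')} = ∅ := by
          ext n
          constructor
          · rintro ⟨h4, h5⟩
            have h6 : (f (gr g') (g' n)).2 = 0 := h4
            have h7 : (f (gr g') (g' n)).2 = b (gr g') := h5
            rw [hb] at h7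
            omega
          · exact fun h => absurd h (Set.notMem_empty n)
        rw [h3] at h2
        exact Ultrafilter.empty_notMem h2
      · have hb : b (gr g) = 0 := if_neg h
        apply h
        refine ⟨g, rfl, ?_⟩
        rw [hb] at hmem
        exact hmem

end Pool.Agent.Lib.MP_8a5d18_gt.Inj
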