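import Pool.Agent.Lib.MP_8a5d18_gt.Ins.Defs

/-! # `C_p(X)` is `p`-sequential iff it is `p`-Fréchet-Urysohn iff `X` has the `γ_p`-property -/

set_option autoImplicit false

namespace Pool.Agent.Lib.MP_8a5d18_gt

universe u

variable {X : Type u} [TopologicalSpace X] {p : Ultrafilter ℕ}

theorem compl_mem_of_ne (hp : ∀ n : ℕ, p ≠ pure n) (n : ℕ) : ({n} : Set ℕ)ᶜ ∈ p := by
  rw [Ultrafilter.compl_mem_iff_notMem]
  intro h
  refine hp n (Ultrafilter.coe_le_coe.1 ?_)
  rw [Ultrafilter.coe_pure]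
  exact Filter.le_pure_iff.2 h

theorem eventually_gt (hp : ∀ n : ℕ, p ≠ pure n) (N : ℕ) : {n | N < n} ∈ p := by
  have h : ∀ j ∈ Finset.range (N + 1), ({j} : Set ℕ)ᶜ ∈ (p : Filter ℕ) :=
    fun j _ => compl_mem_of_ne hp j
  have h1 := (Filter.biInter_finset_mem (Finset.range (N + 1))).2 h
  refine Filter.mem_of_superset h1 fun n hn => ?_
  by_contra hcon
  have h2 : n ∈ Finset.range (N + 1) := Finset.mem_range.2 (by
    have : ¬ N < n := hcon
    omega)
  exact (Set.mem_iInter₂.1 hn n h2) rfl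

theorem pLim_iff {a : ℕ → Cp X} {g : Cp X} :
    PLim p a g ↔ ∀ (x : X) (ε : ℝ), 0 < ε → {n | |(a n).1 x - g.1 x| < ε} ∈ p := by
  have h1 : PLim p a g ↔ Filter.Tendsto a (p : Filter ℕ) (nhds g) := Iff.rfl
  rw [h1, tendsto_subtype_rng, tendsto_pi_nhds]
  refine forall_congr' fun x => ?_
  rw [Metric.tendsto_nhds]
  exact Iff.rfl

theorem mem_closure_iff' {A : Set (Cp X)} {g : Cp X} :
    g ∈ closure A ↔ ∀ (F : Finset X) (ε : ℝ), 0 < ε → ∃ f ∈ A, ∀ x ∈ F, |f.1 x - g.1 x| < ε := by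
  constructor
  · intro h F ε hε
    have hU : {f : Cp X | ∀ x ∈ F, |f.1 x - g.1 x| < ε} ∈ nhds g := by
      have h2 : ∀ x ∈ F, {f : Cp X | |f.1 x - g.1 x| < ε} ∈ nhds g := by
        intro x _
        have hc : Continuous fun f : Cp X => f.1 x := (continuous_apply x).comp continuous_subtype_val
        have := hc.tendsto g (Metric.ball_mem_nhds (g.1 x) hε)
        exact this
      have h3 := (Filter.biInter_finset_mem F).2 h2
      refine Filter.mem_of_superset h3 fun f hf x hx => ?_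
      exact Set.mem_iInter₂.1 hf x hx
    obtain ⟨f, hf, hfA⟩ := mem_closure_iff_nhds.1 h _ hU
    exact ⟨f, hfA, hf⟩
  · intro h
    rw [mem_closure_iff_nhds]
    intro t ht
    obtain ⟨s, hs, hst⟩ := mem_nhds_subtype _ g t |>.1 ht
    rw [nhds_pi, Filter.mem_pi'] at hs
    obtain ⟨F, v, hv, hsub⟩ := hs
    have h1 : ∀ a ∈ F, ∀ᶠ ε in nhdsWithin (0 : ℝ) (Set.Ioi 0), Metric.ball (g.1 a) ε ⊆ v a := by
      intro a _
      obtain ⟨ε, hε, hball⟩ := Metric.mem_nhds_iff.1 (hv a)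
      have : Set.Ioc (0 : ℝ) ε ∈ nhdsWithin (0 : ℝ) (Set.Ioi 0) := Ioc_mem_nhdsGT hε
      filter_upwards [this] with δ hδ
      exact (Metric.ball_subset_ball hδ.2).trans hball
    have h2 : ∀ᶠ ε in nhdsWithin (0 : ℝ) (Set.Ioi 0), ∀ a ∈ F, Metric.ball (g.1 a) ε ⊆ v a :=
      (Filter.eventually_all_finset F).2 h1
    obtain ⟨ε, hε, hε0⟩ := (h2.and self_mem_nhdsWithin).exists
    obtain ⟨f, hfA, hf⟩ := h F ε hε0
    refine ⟨f, hst (hsub ?_), hfA⟩
    intro a ha
    exact hε a (by exact_mod_cast ha) (by simpa [Real.dist_eq] using hf a (by exact_mod_cast ha))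

/-- In a completely regular space a finite set inside an open set `U` can be separated from the
complement of `U` by a continuous real function with values `0` and `c`. -/
theorem bump [CompletelyRegularSpace X] (F : Finset X)
    (U : Set X) (hU : IsOpen U) (hFU : (↑F : Set X) ⊆ U) (c : ℝ) :
    ∃ f : Cp X, (∀ x ∈ F, f.1 x = 0) ∧ ∀ x, x ∉ U → f.1 x = c := by
  have h : ∀ y : X, ∃ f : C(X, ℝ), y ∈ F → (f y = 0 ∧ ∀ x, x ∉ U → f x = 1) := by
    intro y
    by_cases hy : y ∈ F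
    · obtain ⟨f, hf, hf0, hf1⟩ :=
        CompletelyRegularSpace.completely_regular_isOpen y U hU (hFU (by exact_mod_cast hy))
      refine ⟨⟨fun x => (f x : ℝ), by fun_prop⟩, fun _ => ⟨by simp [hf0], fun x hx => ?_⟩⟩
      have := hf1 (show x ∈ Uᶜ from hx)
      simp [this]
    · exact ⟨0, fun h => absurd h hy⟩
  choose f hf using h
  refine ⟨⟨fun x => c * ∏ y ∈ F, f y x, by fun_prop⟩, ?_, ?_⟩
  · intro x hx
    have h0 : ∏ y ∈ F, (f y) x = 0 := Finset.prod_eq_zero hx (hf x hx).1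
    simp only [h0, mul_zero]
  · intro x hx
    simp only
    rw [Finset.prod_eq_one (fun y hy => (hf y hy).2 x hx), mul_one]

/-- Step 1: a countable subfamily that is an `ω`-cover. -/
theorem countable_sub [T35Space X] (hseq : PSequential p (Cp X)) {𝒰 : Set (Set X)}
    (h𝒰 : OmegaCover 𝒰) :
    ∃ V : ℕ → Set X, (∀ n, V n ∈ 𝒰) ∧ ∀ F : Finset X, ∃ n, (↑F : Set X) ⊆ V n := by
  obtain ⟨hopen, huniv, hcov⟩ := h𝒰
  let B : Set (Cp X) := {f | ∃ U ∈ 𝒰, ∀ x, x ∉ U → 1 ≤ f.1 x}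
  let A : Set (Cp X) := {g | ∃ b : ℕ → Cp X, (∀ n, b n ∈ B) ∧
    ∀ (F : Finset X) (ε : ℝ), 0 < ε → ∃ n, ∀ x ∈ F, |(b n).1 x - g.1 x| < ε}
  have hA : IsClosed A := by
    apply hseq A
    intro f g hf hfg
    rw [pLim_iff] at hfg
    choose b hb hbf using hf
    refine ⟨fun k => b k.unpair.1 k.unpair.2, fun n => hb _ _, ?_⟩
    intro F ε hε
    have h1 : ∀ᶠ n in (p : Filter ℕ), ∀ x ∈ F, |(f n).1 x - g.1 x| < ε / 2 :=
      (Filter.eventually_all_finset F).2 fun x _ => hfg x (ε / 2) (half_pos hε)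
    obtain ⟨n, hn⟩ := h1.exists
    obtain ⟨m, hm⟩ := hbf n F (ε / 2) (half_pos hε)
    refine ⟨Nat.pair n m, fun x hx => ?_⟩
    simp only [Nat.unpair_pair]
    calc |(b n m).1 x - g.1 x| ≤ |(b n m).1 x - (f n).1 x| + |(f n).1 x - g.1 x| :=
          abs_sub_le _ _ _
      _ < ε / 2 + ε / 2 := add_lt_add (hm x hx) (hn x hx)
      _ = ε := by ring
  obtain ⟨z, hz⟩ : ∃ z : Cp X, ∀ x, z.1 x = 0 := ⟨⟨fun _ => 0, continuous_const⟩, fun _ => rfl⟩
  have h0 : z ∈ A := by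
    rw [← hA.closure_eq, mem_closure_iff']
    intro F ε hε
    obtain ⟨U, hU, hFU⟩ := hcov F
    obtain ⟨f, hf0, hf1⟩ := bump F U (hopen U hU) hFU 1
    refine ⟨f, ⟨fun _ => f, fun _ => ⟨U, hU, fun x hx => (hf1 x hx).ge⟩, ?_⟩, ?_⟩
    · intro F' ε' hε'
      exact ⟨0, fun x _ => by simpa using hε'⟩
    · intro x hx
      rw [hf0 x hx, hz]
      simpa using hε
  obtain ⟨b, hb, hbc⟩ := h0
  choose U hU hUb using hb
  refine ⟨U, hU, fun F => ?_⟩
  obtain ⟨n, hn⟩ := hbc F 1 one_pos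
  refine ⟨n, fun x hx => ?_⟩
  by_contra hxU
  have h1 := hUb n x hxU
  have h2 := hn x (by exact_mod_cast hx)
  rw [hz, sub_zero] at h2
  exact absurd (lt_of_le_of_lt (le_abs_self _) h2) (not_lt.2 h1)

theorem gammaP_of_pSequential [T35Space X] (hseq : PSequential p (Cp X)) : GammaP p X := by
  intro 𝒰 h𝒰
  obtain ⟨V, hV, hVcov⟩ := countable_sub hseq h𝒰
  obtain ⟨hopen, huniv, hcov⟩ := h𝒰
  let A : Set (Cp X) := {f | ∃ n : ℕ, ∀ x, x ∉ V n → (n : ℝ) + 1 ≤ f.1 x}
  obtain ⟨z, hz⟩ : ∃ z : Cp X, ∀ x, z.1 x = 0 := ⟨⟨fun _ => 0, continuous_const⟩, fun _ => rfl⟩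
  have h0 : z ∉ A := by
    rintro ⟨n, hn⟩
    have : V n ≠ Set.univ := fun h => huniv (h ▸ hV n)
    obtain ⟨x, hx⟩ := (Set.ne_univ_iff_exists_notMem _).1 this
    have h1 := hn x hx
    rw [hz] at h1
    have h2 : (0 : ℝ) ≤ n := Nat.cast_nonneg n
    linarith
  have hncl : ¬ IsClosed A := by
    intro hA
    apply h0
    rw [← hA.closure_eq, mem_closure_iff']
    intro F ε hε
    obtain ⟨n, hFn⟩ := hVcov F
    obtain ⟨f, hf0, hf1⟩ := bump F (V n) (hopen _ (hV n)) hFn ((n : ℝ) + 1)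
    refine ⟨f, ⟨n, fun x hx => (hf1 x hx).ge⟩, fun x hx => ?_⟩
    rw [hf0 x hx, hz]
    simpa using hε
  have hex : ∃ (f : ℕ → Cp X) (g : Cp X), (∀ n, f n ∈ A) ∧ PLim p f g ∧ g ∉ A := by
    by_contra hcon
    push Not at hcon
    exact hncl (hseq A (fun f g hf hfg => hcon f g hf hfg))
  obtain ⟨f, g, hf, hfg, hg⟩ := hex
  rw [pLim_iff] at hfg
  choose k hk using hf
  -- The index function tends to infinity along `p`.
  have hinf : ∀ N : ℕ, ∀ᶠ n in (p : Filter ℕ), N < k n := by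
    intro N
    by_contra hcon
    have h1 : ∀ᶠ n in (p : Filter ℕ), ¬ N < k n := Ultrafilter.eventually_not.2 hcon
    have h2 : ∀ᶠ n in (p : Filter ℕ), ∃ j ∈ Finset.range (N + 1), k n = j := by
      filter_upwards [h1] with n hn
      exact ⟨k n, Finset.mem_range.2 (by omega), rfl⟩
    have h3 : ∃ j ∈ Finset.range (N + 1), ∀ᶠ n in (p : Filter ℕ), k n = j := by
      have := (Ultrafilter.eventually_exists_mem_iff (Finset.finite_toSet _)).1 h2
      exact this
    obtain ⟨j, _, hj⟩ := h3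
    apply hg
    refine ⟨j, fun x hx => ?_⟩
    refine le_of_forall_pos_lt_add fun ε hε => ?_
    obtain ⟨n, hn1, hn2⟩ := ((show ∀ᶠ n in (p : Filter ℕ), |(f n).1 x - g.1 x| < ε from
      hfg x ε hε).and hj).exists
    have h4 := hk n x (by rw [hn2]; exact hx)
    rw [hn2] at h4
    have h5 := (abs_lt.1 hn1).2
    linarith
  have hmem : ∀ x, {n | x ∈ V (k n)} ∈ p := by
    intro x
    obtain ⟨N, hN⟩ := exists_nat_gt (g.1 x + 1)
    have h1 : ∀ᶠ n in (p : Filter ℕ), |(f n).1 x - g.1 x| < 1 := hfg x 1 one_pos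
    have h2 : ∀ᶠ n in (p : Filter ℕ), x ∈ V (k n) := by
      filter_upwards [h1, hinf N] with n hn1 hn2
      by_contra hx
      have h2 := hk n x hx
      have h3 : (N : ℝ) < k n := by exact_mod_cast hn2
      have h5 := (abs_lt.1 hn1).2
      linarith
    exact h2
  refine ⟨Set.range fun n => V (k n), ?_, ?_, ?_, fun n => V (k n), rfl, hmem⟩
  · rintro _ ⟨n, rfl⟩
    exact hV _
  · rintro _ ⟨n, rfl⟩
    exact hopen _ (hV _)
  · rw [Set.eq_univ_iff_forall]
    intro x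
    obtain ⟨n, hn⟩ := (show ∀ᶠ n in (p : Filter ℕ), x ∈ V (k n) from hmem x).exists
    exact ⟨_, ⟨n, rfl⟩, hn⟩

theorem pFrechet_of_gammaP [T1Space X] (hp : ∀ n : ℕ, p ≠ pure n) (h : GammaP p X) :
    PFrechet p (Cp X) := by
  intro A g hg
  rw [mem_closure_iff'] at hg
  by_cases hP : ∀ n : ℕ, ∃ f ∈ A, ∀ x, |f.1 x - g.1 x| < 1 / ((n : ℝ) + 1)
  · choose f hfA hf using hP
    refine ⟨f, hfA, pLim_iff.2 fun x ε hε => ?_⟩
    obtain ⟨N, hN⟩ := exists_nat_one_div_lt hε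
    refine Filter.mem_of_superset (eventually_gt hp N) fun n hn => ?_
    have h1 : (1 : ℝ) / ((n : ℝ) + 1) ≤ 1 / ((N : ℝ) + 1) := by
      have : (N : ℝ) < n := by exact_mod_cast (show N < n from hn)
      exact one_div_le_one_div_of_le (by positivity) (by linarith)
    exact lt_of_lt_of_le (hf n x) (h1.trans hN.le)
  · push Not at hP
    obtain ⟨N, hN⟩ := hP
    have hinf : Infinite X := by
      by_contra hfin
      rw [not_infinite_iff_finite] at hfin
      have := Fintype.ofFinite X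
      obtain ⟨f, hfA, hf⟩ := hg Finset.univ (1 / ((N : ℝ) + 1)) (by positivity)
      obtain ⟨x, hx⟩ := hN f hfA
      exact absurd (hf x (Finset.mem_univ x)) (not_lt.2 hx)
    obtain ⟨e, he⟩ : ∃ e : ℕ → X, Function.Injective e :=
      ⟨Infinite.natEmbedding X, (Infinite.natEmbedding X).injective⟩
    obtain ⟨U, hU⟩ : ∃ U : Cp X → ℕ → Set X, ∀ f n,
        U f n = {x | |f.1 x - g.1 x| < 1 / ((n : ℝ) + 1)} ∩ {e n}ᶜ := ⟨_, fun _ _ => rfl⟩
    have hcov : OmegaCover {W | ∃ f ∈ A, ∃ n, W = U f n} := by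
      refine ⟨?_, ?_, fun F => ?_⟩
      · rintro W ⟨f, _, n, rfl⟩
        rw [hU]
        refine IsOpen.inter ?_ isOpen_compl_singleton
        exact isOpen_lt ((f.2.sub g.2).abs) continuous_const
      · rintro ⟨f, _, n, hW⟩
        rw [hU] at hW
        have : e n ∈ {x | |f.1 x - g.1 x| < 1 / ((n : ℝ) + 1)} ∩ {e n}ᶜ := hW ▸ Set.mem_univ _
        exact this.2 rfl
      · obtain ⟨n, hn⟩ : ∃ n, e n ∉ F := by
          by_contra hcon
          push Not at hcon
          have : Set.range e ⊆ (F : Set X) := by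
            rintro _ ⟨n, rfl⟩
            exact_mod_cast hcon n
          exact (Set.infinite_range_of_injective he) ((Finset.finite_toSet F).subset this)
        obtain ⟨f, hfA, hf⟩ := hg F (1 / ((n : ℝ) + 1)) (by positivity)
        refine ⟨U f n, ⟨f, hfA, n, rfl⟩, fun x hx => ?_⟩
        rw [hU]
        refine ⟨hf x (by exact_mod_cast hx), fun hxe => hn ?_⟩
        have : x = e n := hxe
        rw [← this]
        exact_mod_cast hx
    obtain ⟨𝒱, hsub, -, -, u, hu, hmem⟩ := h _ hcov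
    have hux : ∀ k, ∃ f ∈ A, ∃ n, u k = U f n := fun k => hsub (hu ▸ Set.mem_range_self k)
    choose f hfA n hn using hux
    refine ⟨f, hfA, pLim_iff.2 fun x ε hε => ?_⟩
    obtain ⟨M, hM⟩ := exists_nat_one_div_lt hε
    have h1 : ∀ j, {k | n k = j}ᶜ ∈ p := by
      intro j
      refine Filter.mem_of_superset (hmem (e j)) fun k hk hkj => ?_
      have h2 : e j ∈ u k := hk
      rw [hn, hU] at h2
      have h3 : n k = j := hkj
      rw [h3] at h2
      exact h2.2 rfl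
    have h2 : ∀ j ∈ Finset.range (M + 1), {k | n k = j}ᶜ ∈ (p : Filter ℕ) := fun j _ => h1 j
    have h3 := (Filter.biInter_finset_mem (Finset.range (M + 1))).2 h2
    refine Filter.mem_of_superset (Filter.inter_mem h3 (hmem x)) fun k hk => ?_
    have h4 : x ∈ u k := hk.2
    rw [hn, hU] at h4
    have h5 : M < n k := by
      by_contra hcon
      exact (Set.mem_iInter₂.1 hk.1 (n k) (Finset.mem_range.2 (by omega))) rfl
    have h6 : (1 : ℝ) / ((n k : ℝ) + 1) ≤ 1 / ((M : ℝ) + 1) := by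
      have : (M : ℝ) < n k := by exact_mod_cast h5
      exact one_div_le_one_div_of_le (by positivity) (by linarith)
    exact lt_of_lt_of_le h4.1 (h6.trans hM.le)

theorem pSequential_of_pFrechet {Y : Type u} [TopologicalSpace Y] (h : PFrechet p Y) :
    PSequential p Y := by
  intro A hA
  refine isClosed_of_closure_subset fun y hy => ?_
  obtain ⟨a, ha, hay⟩ := h A y hy
  exact hA a y ha hay

end Pool.Agent.Lib.MP_8a5d18_gt
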