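import Pool.Agent.Lib.MP_8a5d18_gt.Ins.DefsInj
import Pool.Agent.Lib.MP_8a5d18_gt.Ins.Indep
import Pool.Agent.Lib.MP_8a5d18_gt.Ins.Main

/-! # One-to-one enumerations: the `γ_q`-property does not give them -/

set_option autoImplicit false

namespace Pool.Agent.Lib.MP_8a5d18_gt.Inj

open Pool.Agent.Lib.MP_8a5d18_gt

/-- Codes of open `ω`-covers in a second countable space. -/
theorem code {X : Type} [TopologicalSpace X] (b : ℕ → Set X)
    (hb : TopologicalSpace.IsTopologicalBasis (Set.range b)) {𝒰 : Set (Set X)}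
    (h𝒰 : OmegaCover 𝒰) :
    ∃ (V : ℕ → Set X) (α : Set (ℕ × ℕ)), (∀ j, V j ∈ 𝒰) ∧
      (∀ F : Finset X, ∃ j, ∀ x ∈ F, x ∈ V j) ∧
      ∀ x j, x ∈ V j ↔ ∃ i, (j, i) ∈ α ∧ x ∈ b i := by
  classical
  obtain ⟨hopen, -, hcov⟩ := h𝒰
  obtain ⟨U₀, hU₀, -⟩ := hcov ∅
  have h1 : ∀ s : Finset ℕ, ∃ U ∈ 𝒰, (∃ V ∈ 𝒰, ∀ i ∈ s, b i ⊆ V) → ∀ i ∈ s, b i ⊆ U := by
    intro s
    by_cases h : ∃ V ∈ 𝒰, ∀ i ∈ s, b i ⊆ V
    · obtain ⟨V, hV, hs⟩ := h
      exact ⟨V, hV, fun _ => hs⟩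
    · exact ⟨U₀, hU₀, fun h' => absurd h' h⟩
  choose U hU hUs using h1
  obtain ⟨e, he⟩ := exists_surjective_nat (Finset ℕ)
  refine ⟨fun j => U (e j), {x | b x.2 ⊆ U (e x.1)}, fun j => hU _, fun F => ?_, fun x j => ?_⟩
  · obtain ⟨V, hV, hFV⟩ := hcov F
    have h2 : ∀ x : X, ∃ i, x ∈ V → (x ∈ b i ∧ b i ⊆ V) := by
      intro x
      by_cases hx : x ∈ V
      · obtain ⟨_, ⟨i, rfl⟩, hxi, hi⟩ := hb.exists_subset_of_mem_open hx (hopen V hV)
        exact ⟨i, fun _ => ⟨hxi, hi⟩⟩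
      · exact ⟨0, fun h => absurd h hx⟩
    choose i hi using h2
    obtain ⟨j, hj⟩ := he (F.image i)
    refine ⟨j, fun x hx => ?_⟩
    have hxV : x ∈ V := hFV (by exact_mod_cast hx)
    have h3 := hUs (F.image i) ⟨V, hV, fun k hk => by
      obtain ⟨y, hy, rfl⟩ := Finset.mem_image.1 hk
      exact (hi y (hFV (by exact_mod_cast hy))).2⟩ (i x) (Finset.mem_image_of_mem i hx)
    have h4 := h3 (hi x hxV).1
    rw [← hj] at h4
    exact h4
  · constructor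
    · intro hx
      obtain ⟨_, ⟨i, rfl⟩, hxi, hi⟩ := hb.exists_subset_of_mem_open hx (hopen _ (hU (e j)))
      exact ⟨i, hi, hxi⟩
    · rintro ⟨i, hi, hx⟩
      exact hi hx

/-- The ultrafilter `p₀` as a subspace of the Cantor set. -/
def Sp (p₀ : Ultrafilter ℕ) : Set (ℕ → Bool) := {x | {n | x n = true} ∈ p₀}

/-- The set `S ∈ p₀` as a point. -/
noncomputable def pt {p₀ : Ultrafilter ℕ} (S : Set ℕ) (hS : S ∈ p₀) : Sp p₀ := by
  classical
  exact ⟨fun n => decide (n ∈ S), by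
    have h : {n | decide (n ∈ S) = true} = S := by ext n; simp
    change {n | decide (n ∈ S) = true} ∈ p₀
    rw [h]
    exact hS⟩

theorem pt_iff {p₀ : Ultrafilter ℕ} {S : Set ℕ} (hS : S ∈ p₀) (n : ℕ) :
    (pt S hS).1 n = true ↔ n ∈ S := by
  simp [pt]

/-- The clopen sets of the cover. -/
def cl (p₀ : Ultrafilter ℕ) (n : ℕ) : Set (Sp p₀) := {x | x.1 n = true}

theorem isClopen_cl (p₀ : Ultrafilter ℕ) (n : ℕ) : IsClopen (cl p₀ n) := by
  have hc : Continuous fun x : Sp p₀ => x.1 n := (continuous_apply n).comp continuous_subtype_val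
  exact (isClopen_discrete {true}).preimage hc

theorem cl_inj {p₀ : Ultrafilter ℕ} (hp : ∀ n : ℕ, p₀ ≠ pure n) :
    Function.Injective (cl p₀) := by
  intro n m h
  by_contra hne
  have h1 : pt _ (compl_mem_of_ne hp n) ∈ cl p₀ m :=
    (pt_iff (compl_mem_of_ne hp n) m).2 (fun h => hne (Set.mem_singleton_iff.1 h).symm)
  rw [← h] at h1
  exact (pt_iff (compl_mem_of_ne hp n) n).1 h1 rfl

theorem omegaCover_cl {p₀ : Ultrafilter ℕ} (hp : ∀ n : ℕ, p₀ ≠ pure n) :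
    OmegaCover (Set.range (cl p₀)) := by
  refine ⟨?_, ?_, fun F => ?_⟩
  · rintro _ ⟨n, rfl⟩
    exact (isClopen_cl p₀ n).isOpen
  · rintro ⟨n, hn⟩
    have h1 : pt _ (compl_mem_of_ne hp n) ∈ cl p₀ n := by rw [hn]; trivial
    exact (pt_iff (compl_mem_of_ne hp n) n).1 h1 rfl
  · have h1 : ∀ x ∈ F, {n | x.1 n = true} ∈ (p₀ : Filter ℕ) := fun x _ => x.2
    have h2 := (Filter.biInter_finset_mem F).2 h1
    obtain ⟨n, hn⟩ := p₀.nonempty_of_mem h2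
    refine ⟨cl p₀ n, ⟨n, rfl⟩, fun x hx => ?_⟩
    exact Set.mem_iInter₂.1 hn x (by exact_mod_cast hx)

theorem exists_q (p₀ : Ultrafilter ℕ) :
    ∃ q : Ultrafilter ℕ, (∀ n : ℕ, q ≠ pure n) ∧ GammaP q (Sp p₀) ∧
      ¬ ∃ 𝒱 ⊆ Set.range (cl p₀), GammaPCoverInj q 𝒱 := by
  classical
  have hbase : ∃ b : ℕ → Set (Sp p₀), TopologicalSpace.IsTopologicalBasis (Set.range b) := by
    have hB := TopologicalSpace.isBasis_countableBasis (Sp p₀)
    have hne : (TopologicalSpace.countableBasis (Sp p₀)).Nonempty := by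
      have h1 : pt Set.univ (p₀ := p₀) Filter.univ_mem ∈ ⋃₀ TopologicalSpace.countableBasis (Sp p₀) := by
        rw [hB.sUnion_eq]; trivial
      obtain ⟨s, hs, -⟩ := h1
      exact ⟨s, hs⟩
    obtain ⟨b, hb⟩ := (TopologicalSpace.countable_countableBasis (Sp p₀)).exists_eq_range hne
    exact ⟨b, hb ▸ hB⟩
  obtain ⟨b, hb⟩ := hbase
  obtain ⟨q, hq1, hq2, hq3⟩ := exists_ultra
    (fun (α : Set (ℕ × ℕ)) (x : Sp p₀) j => ∃ i, (j, i) ∈ α ∧ x ∈ b i) p₀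
  refine ⟨q, ?_, ?_, ?_⟩
  · rintro n rfl
    have h1 := hq1 n
    rw [Ultrafilter.mem_pure] at h1
    exact h1 rfl
  · intro 𝒰 h𝒰
    obtain ⟨V, α, hV, hVcov, hVα⟩ := code b hb h𝒰
    obtain ⟨w, hw⟩ := hq2 α (fun F => by
      obtain ⟨j, hj⟩ := hVcov F
      exact ⟨j, fun x hx => (hVα x j).1 (hj x hx)⟩)
    have hw' : ∀ x, {k | x ∈ V (w k)} ∈ q := by
      intro x
      refine Filter.mem_of_superset (hw x) fun k hk => ?_
      exact (hVα x (w k)).2 hk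
    refine ⟨Set.range fun k => V (w k), ?_, ?_, ?_, fun k => V (w k), rfl, hw'⟩
    · rintro _ ⟨n, rfl⟩
      exact hV _
    · rintro _ ⟨n, rfl⟩
      exact h𝒰.1 _ (hV _)
    · rw [Set.eq_univ_iff_forall]
      intro x
      obtain ⟨n, hn⟩ := q.nonempty_of_mem (hw' x)
      exact ⟨_, ⟨n, rfl⟩, hn⟩
  · rintro ⟨𝒱, hsub, -, -, u, hu, hru, hmem⟩
    have h1 : ∀ k, ∃ n, cl p₀ n = u k := fun k => hsub (hru ▸ Set.mem_range_self k)
    choose w hw using h1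
    have hwinj : Function.Injective w := by
      intro k l hkl
      apply hu
      rw [← hw k, ← hw l, hkl]
    obtain ⟨T, hT, hTp⟩ := hq3 (Function.invFun w)
    have h2 : (Function.invFun w ⁻¹' T)ᶜ ∈ p₀ := Ultrafilter.compl_mem_iff_notMem.2 hTp
    have h3 := hmem (pt _ h2)
    have h4 : {n | pt _ h2 ∈ u n} = Tᶜ := by
      ext k
      change pt _ h2 ∈ u k ↔ k ∉ T
      rw [← hw k]
      change (pt _ h2).1 (w k) = true ↔ k ∉ T
      rw [pt_iff h2]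
      change ¬ (Function.invFun w (w k) ∈ T) ↔ k ∉ T
      rw [Function.leftInverse_invFun hwinj k]
    rw [h4] at h3
    exact Ultrafilter.compl_mem_iff_notMem.1 h3 hT

end Pool.Agent.Lib.MP_8a5d18_gt.Inj
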